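import Pool.Agent.CLV.Final

set_option autoImplicit false

/-! Multiple recurrence for three non-commuting measure preserving maps at the times `m`, `m + n`,
`m + 2n`, when the generators of the generalised eigenvalues of the three maps have arbitrarily
large closed cuts at almost every point of a part of `A`. -/

open MeasureTheory

universe u

namespace Pool.Agent.Results.MP_cfac66_an.ClosedLevels

open Pool.Agent.FSP Pool.Agent.Ind3 Pool.Agent.CLV

/-- The functions `θ 0, θ 1, ...` are measurable, of modulus one and `Q`-invariant, and they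
generate the generalised eigenvalues of `Q`: whenever `v` is measurable, `lam` is measurable, of
modulus one and `Q`-invariant, and `v (Q x) = lam x * v x` almost everywhere, then for almost
every `x` with `v x ≠ 0` some power `lam x ^ n`, `n ≥ 1`, is a monomial with integer exponents in
finitely many of the numbers `θ j x`. -/
def Generates {Ω : Type u} [MeasurableSpace Ω] (μ : Measure Ω) (Q : Ω → Ω) (θ : ℕ → Ω → ℂ) :
    Prop :=
  (∀ j, Measurable (θ j)) ∧ (∀ j x, ‖θ j x‖ = 1) ∧ (∀ j x, θ j (Q x) = θ j x) ∧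
    ∀ v lam : Ω → ℂ, Measurable v → Measurable lam → (∀ x, ‖lam x‖ = 1) →
      (∀ x, lam (Q x) = lam x) → (∀ᵐ x ∂μ, v (Q x) = lam x * v x) →
      ∀ᵐ x ∂μ, v x ≠ 0 →
        ∃ n : ℕ, 1 ≤ n ∧ ∃ (k : ℕ) (a : Fin k → ℤ), lam x ^ n = ∏ j : Fin k, θ j x ^ a j

/-- Some power `z ^ k`, `k ≥ 1`, is a monomial with integer exponents in `s 0, ..., s (n - 1)`. -/
def Spanned (s : ℕ → ℂ) (n : ℕ) (z : ℂ) : Prop :=
  ∃ k : ℕ, 1 ≤ k ∧ ∃ a : Fin n → ℤ, z ^ k = ∏ j : Fin n, s j ^ a j

/-- The cuts `i, j, k` of the lists `a, b, c` are closed: a number which is spanned by the first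
terms (up to the cut) of two of the lists, and by some terms of the third list, is spanned by the
first terms (up to the cut) of the third list. -/
def ClosedCuts (a b c : ℕ → ℂ) (i j k : ℕ) : Prop :=
  ∀ z : ℂ, (Spanned a i z → Spanned b j z → (∃ n, Spanned c n z) → Spanned c k z) ∧
    (Spanned a i z → Spanned c k z → (∃ n, Spanned b n z) → Spanned b j z) ∧
    (Spanned b j z → Spanned c k z → (∃ n, Spanned a n z) → Spanned a i z)

theorem toCircle {Ω : Type u} [MeasurableSpace Ω] {μ : Measure Ω} {Q : Ω → Ω} {θ : ℕ → Ω → ℂ}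
    (h : Generates μ Q θ) : ∃ θ' : ℕ → Ω → Circle, (∀ j x, (θ' j x : ℂ) = θ j x) ∧
      (∀ j, Measurable (θ' j)) ∧ (∀ j x, θ' j (Q x) = θ' j x) ∧ Gen μ Q θ' := by
  obtain ⟨hθ, hθ1, hθQ, hgen⟩ := h
  have hcont : Continuous (fun z : Circle => (z : ℂ)) := continuous_induced_dom
  have hmeas : ∀ f : Ω → Circle, Measurable (fun x => (f x : ℂ)) → Measurable f := by
    intro f hf
    apply measurable_of_isOpen
    intro s hs
    obtain ⟨U, hU, rfl⟩ := isOpen_induced_iff.1 hs
    exact hf hU.measurableSet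
  obtain ⟨θ', hθ'⟩ : ∃ θ' : ℕ → Ω → Circle, ∀ j x, (θ' j x : ℂ) = θ j x :=
    ⟨fun j x => ⟨θ j x, mem_sphere_zero_iff_norm.2 (hθ1 j x)⟩, fun _ _ => rfl⟩
  refine ⟨θ', hθ', fun j => ?_, fun j x => ?_, ?_⟩
  · apply hmeas
    simp only [hθ']
    exact hθ j
  · apply Circle.ext
    rw [hθ', hθ', hθQ]
  · intro v lam hv hlam hlQ hvl
    have h1 := hgen v (fun x => (lam x : ℂ)) hv (hcont.measurable.comp hlam)
      (fun x => Circle.norm_coe _) (fun x => by rw [hlQ x]) hvl
    filter_upwards [h1] with x hx hvx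
    obtain ⟨n, hn, k, a, ha⟩ := hx hvx
    refine ⟨n, hn, k, a, ?_⟩
    apply Circle.ext
    have h2 : ∀ s : Finset (Fin k), ((∏ j ∈ s, θ' j x ^ a j : Circle) : ℂ)
        = ∏ j ∈ s, θ j x ^ a j := by
      intro s
      classical
      induction s using Finset.induction_on with
      | empty => simp
      | insert i s his ih =>
        rw [Finset.prod_insert his, Finset.prod_insert his, Circle.coe_mul, ih,
          Circle.coe_zpow, hθ']
    rw [h2, Circle.coe_pow]
    exact ha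

theorem spanned_iff (s' : ℕ → Circle) (s : ℕ → ℂ) (h : ∀ j, (s' j : ℂ) = s j) (n : ℕ)
    (z : Circle) : Sp s' n z ↔ Spanned s n (z : ℂ) := by
  have h2 : ∀ (a : ℕ → ℤ), ((∏ j ∈ Finset.range n, s' j ^ a j : Circle) : ℂ)
      = ∏ j ∈ Finset.range n, s j ^ a j := by
    intro a
    have h3 : ∀ t : Finset ℕ, ((∏ j ∈ t, s' j ^ a j : Circle) : ℂ) = ∏ j ∈ t, s j ^ a j := by
      intro t
      induction t using Finset.induction_on with
      | empty => simp
      | insert i t hit ih =>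
        rw [Finset.prod_insert hit, Finset.prod_insert hit, Circle.coe_mul, ih,
          Circle.coe_zpow, h]
    exact h3 _
  constructor
  · rintro ⟨k, hk, a, ha⟩
    refine ⟨k, hk, fun j => a j, ?_⟩
    rw [← Circle.coe_pow, ha, h2, Finset.prod_range]
  · rintro ⟨k, hk, a, ha⟩
    refine ⟨k, hk, fun j => if hj : j < n then a ⟨j, hj⟩ else 0, ?_⟩
    apply Circle.ext
    rw [h2, Circle.coe_pow, ha, Finset.prod_range]
    apply Finset.prod_congr rfl
    intro j _
    rw [dif_pos j.2]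

/-- Let `T, S, R` be invertible measure preserving maps of a probability space, and let the lists
`α, β, γ` generate the generalised eigenvalues of `T`, of `S` and of `R`. Let `A`, `Z` be measurable
sets with `μ (A ∩ Z) ≠ 0` and suppose that for almost every `x ∈ Z` the three lists of numbers
`α 0 x, α 1 x, ..`, `β 0 x, ..` and `γ 0 x, ..` have closed cuts `i, j, k` which are all as large as
one wants. Then for some `m, n ≥ 1` the set `A ∩ T^{-m}A ∩ S^{-(m+n)}A ∩ R^{-(m+2n)}A` has positive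
measure. -/
theorem result (Ω : Type u) [MeasurableSpace Ω] (μ : Measure Ω)
    [IsProbabilityMeasure μ]
    (T S R : Ω ≃ᵐ Ω) (hT : MeasurePreserving T μ μ) (hS : MeasurePreserving S μ μ)
    (hR : MeasurePreserving R μ μ) (α β γ : ℕ → Ω → ℂ) (hα : Generates μ T α)
    (hβ : Generates μ S β) (hγ : Generates μ R γ)
    (A : Set Ω) (hA : MeasurableSet A) (Z : Set Ω) (hZ : MeasurableSet Z) (hAZ : μ (A ∩ Z) ≠ 0)
    (hcut : ∀ᵐ x ∂μ, x ∈ Z → ∀ N : ℕ, ∃ i j k : ℕ, N ≤ i ∧ N ≤ j ∧ N ≤ k ∧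
      ClosedCuts (fun t => α t x) (fun t => β t x) (fun t => γ t x) i j k) :
    ∃ m n : ℕ, 1 ≤ m ∧ 1 ≤ n ∧
      μ (A ∩ (⇑T)^[m] ⁻¹' A ∩ (⇑S)^[m + n] ⁻¹' A ∩ (⇑R)^[m + 2 * n] ⁻¹' A) ≠ 0 := by
  obtain ⟨α', hα1, hα2, hα3, hα4⟩ := toCircle hα
  obtain ⟨β', hβ1, hβ2, hβ3, hβ4⟩ := toCircle hβ
  obtain ⟨γ', hγ1, hγ2, hγ3, hγ4⟩ := toCircle hγ
  refine f_FNC Ω μ T S R hT hS hR ![γ', β', α'] ?_ hγ3 hβ3 hα3 hγ4 hβ4 hα4 A Z hA hZ hAZ ?_
  · intro l j
    fin_cases l
    · exact hγ2 j
    · exact hβ2 j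
    · exact hα2 j
  · filter_upwards [hcut] with x hx hxZ N
    obtain ⟨i, j, k, hi, hj, hk, hc⟩ := hx hxZ N
    have ea : ∀ n z, Sp (fun t => α' t x) n z ↔ Spanned (fun t => α t x) n (z : ℂ) :=
      spanned_iff _ _ fun t => hα1 t x
    have eb : ∀ n z, Sp (fun t => β' t x) n z ↔ Spanned (fun t => β t x) n (z : ℂ) :=
      spanned_iff _ _ fun t => hβ1 t x
    have ec : ∀ n z, Sp (fun t => γ' t x) n z ↔ Spanned (fun t => γ t x) n (z : ℂ) :=
      spanned_iff _ _ fun t => hγ1 t x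
    have key : ∀ z : Circle,
        (Sp (fun t => α' t x) i z → Sp (fun t => β' t x) j z → SpI (fun t => γ' t x) z →
          Sp (fun t => γ' t x) k z) ∧
        (Sp (fun t => α' t x) i z → Sp (fun t => γ' t x) k z → SpI (fun t => β' t x) z →
          Sp (fun t => β' t x) j z) ∧
        (Sp (fun t => β' t x) j z → Sp (fun t => γ' t x) k z → SpI (fun t => α' t x) z →
          Sp (fun t => α' t x) i z) := by
      intro z
      obtain ⟨h1, h2, h3⟩ := hc (z : ℂ)
      refine ⟨fun p q ⟨n, r⟩ => ?_, fun p q ⟨n, r⟩ => ?_, fun p q ⟨n, r⟩ => ?_⟩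
      · exact (ec _ _).2 (h1 ((ea _ _).1 p) ((eb _ _).1 q) ⟨n, (ec _ _).1 r⟩)
      · exact (eb _ _).2 (h2 ((ea _ _).1 p) ((ec _ _).1 q) ⟨n, (eb _ _).1 r⟩)
      · exact (ea _ _).2 (h3 ((eb _ _).1 p) ((ec _ _).1 q) ⟨n, (ea _ _).1 r⟩)
    refine ⟨![k, j, i], ?_, ?_⟩
    · intro i' j' l h1 h2 h3 z
      fin_cases i' <;> fin_cases j' <;> fin_cases l
      all_goals first
        | exact absurd rfl h1
        | exact absurd rfl h2
        | exact absurd rfl h3
        | exact fun p q r => (key z).1 p q r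
        | exact fun p q r => (key z).1 q p r
        | exact fun p q r => (key z).2.1 p q r
        | exact fun p q r => (key z).2.1 q p r
        | exact fun p q r => (key z).2.2 p q r
        | exact fun p q r => (key z).2.2 q p r
    · intro l
      fin_cases l
      · exact hk
      · exact hj
      · exact hi

end Pool.Agent.Results.MP_cfac66_an.ClosedLevels
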