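import Pool.Agent.Ind3.Final

set_option autoImplicit false

/-! Multiple recurrence for three non-commuting maps whose generalised eigenvalues have
independent generators; all three maps may have eigenvalue groups of infinite rank. -/

open MeasureTheory

universe u

namespace Pool.Agent.Results.MP_cfac66_an.IndependentGenerators

open Pool.Agent.FSP Pool.Agent.Ind3

/-- The functions `θ 0, θ 1, ...` are measurable, of modulus one and `Q`-invariant, and they
generate the generalised eigenvalues of `Q`: whenever `v` is measurable, `lam` is measurable, of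
modulus one and `Q`-invariant, and `v (Q x) = lam x * v x` almost everywhere, then for almost
every `x` with `v x ≠ 0` some power `lam x ^ n`, `n ≥ 1`, is a monomial with integer exponents in
finitely many of the numbers `θ j x`. -/
def Generates {Ω : Type u} [MeasurableSpace Ω] (μ : Measure Ω) (Q : Ω → Ω) (θ : ℕ → Ω → ℂ) :
    Prop :=
  (∀ j, Measurable (θ j)) ∧ (∀ j x, ‖θ j x‖ = 1) ∧ (∀ j x, θ j (Q x) = θ j x) ∧
    ∀ v lam : Ω → ℂ, Measurable v → Measurable lam → (∀ x, ‖lam x‖ = 1) →
      (∀ x, lam (Q x) = lam x) → (∀ᵐ x ∂μ, v (Q x) = lam x * v x) →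
      ∀ᵐ x ∂μ, v x ≠ 0 →
        ∃ n : ℕ, 1 ≤ n ∧ ∃ (k : ℕ) (a : Fin k → ℤ), lam x ^ n = ∏ j : Fin k, θ j x ^ a j

/-- The elements of the set `Z` are multiplicatively independent: a monomial with integer
exponents in finitely many distinct elements of `Z` is `1` only if all exponents are zero. -/
def Independent (Z : Set ℂ) : Prop :=
  ∀ s : Finset ℂ, (∀ z ∈ s, z ∈ Z) → ∀ n : ℂ → ℤ, ∏ z ∈ s, z ^ n z = 1 → ∀ z ∈ s, n z = 0

theorem toCircle {Ω : Type u} [MeasurableSpace Ω] {μ : Measure Ω} {Q : Ω → Ω} {θ : ℕ → Ω → ℂ}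
    (h : Generates μ Q θ) : ∃ θ' : ℕ → Ω → Circle, (∀ j x, (θ' j x : ℂ) = θ j x) ∧
      (∀ j, Measurable (θ' j)) ∧ (∀ j x, θ' j (Q x) = θ' j x) ∧ Gen μ Q θ' := by
  obtain ⟨hθ, hθ1, hθQ, hgen⟩ := h
  have hcont : Continuous (fun z : Circle => (z : ℂ)) := continuous_induced_dom
  have hmeas : ∀ f : Ω → Circle, Measurable (fun x => (f x : ℂ)) → Measurable f := by
    intro f hf
    apply measurable_of_isOpen
    intro s hs
    obtain ⟨U, hU, rfl⟩ := isOpen_induced_iff.1 hs
    exact hf hU.measurableSet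
  obtain ⟨θ', hθ'⟩ : ∃ θ' : ℕ → Ω → Circle, ∀ j x, (θ' j x : ℂ) = θ j x :=
    ⟨fun j x => ⟨θ j x, mem_sphere_zero_iff_norm.2 (hθ1 j x)⟩, fun _ _ => rfl⟩
  refine ⟨θ', hθ', fun j => ?_, fun j x => ?_, ?_⟩
  · apply hmeas
    simp only [hθ']
    exact hθ j
  · apply Circle.ext
    rw [hθ', hθ', hθQ]
  · intro v lam hv hlam hlQ hvl
    have h1 := hgen v (fun x => (lam x : ℂ)) hv (hcont.measurable.comp hlam)
      (fun x => Circle.norm_coe _) (fun x => by rw [hlQ x]) hvl
    filter_upwards [h1] with x hx hvx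
    obtain ⟨n, hn, k, a, ha⟩ := hx hvx
    refine ⟨n, hn, k, a, ?_⟩
    apply Circle.ext
    have h2 : ∀ s : Finset (Fin k), ((∏ j ∈ s, θ' j x ^ a j : Circle) : ℂ)
        = ∏ j ∈ s, θ j x ^ a j := by
      intro s
      classical
      induction s using Finset.induction_on with
      | empty => simp
      | insert i s his ih =>
        rw [Finset.prod_insert his, Finset.prod_insert his, Circle.coe_mul, ih,
          Circle.coe_zpow, hθ']
    rw [h2, Circle.coe_pow]
    exact ha

/-- Let `T, S, R` be invertible measure preserving maps of a probability space and suppose that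
there are countable families `α, β, γ` of invariant functions of modulus one which generate the
generalised eigenvalues of `T`, of `S` and of `R`, such that for almost every `x` the set of all
numbers different from `1` among the `α j x`, `β j x`, `γ j x` is multiplicatively independent.
Then for every measurable `A` with `μ A ≠ 0` there are `m, n ≥ 1` such that the set
`A ∩ T^{-m}A ∩ S^{-(m+n)}A ∩ R^{-(m+2n)}A` has positive measure. -/
theorem result (Ω : Type u) [MeasurableSpace Ω] (μ : Measure Ω)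
    [IsProbabilityMeasure μ]
    (T S R : Ω ≃ᵐ Ω) (hT : MeasurePreserving T μ μ) (hS : MeasurePreserving S μ μ)
    (hR : MeasurePreserving R μ μ) (α β γ : ℕ → Ω → ℂ) (hα : Generates μ T α)
    (hβ : Generates μ S β) (hγ : Generates μ R γ)
    (hind : ∀ᵐ x ∂μ, Independent {z | z ≠ 1 ∧ ∃ j, α j x = z ∨ β j x = z ∨ γ j x = z})
    (A : Set Ω) (hA : MeasurableSet A) (hA0 : μ A ≠ 0) :
    ∃ m n : ℕ, 1 ≤ m ∧ 1 ≤ n ∧
      μ (A ∩ (⇑T)^[m] ⁻¹' A ∩ (⇑S)^[m + n] ⁻¹' A ∩ (⇑R)^[m + 2 * n] ⁻¹' A) ≠ 0 := by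
  obtain ⟨α', hα1, hα2, hα3, hα4⟩ := toCircle hα
  obtain ⟨β', hβ1, hβ2, hβ3, hβ4⟩ := toCircle hβ
  obtain ⟨γ', hγ1, hγ2, hγ3, hγ4⟩ := toCircle hγ
  refine f_FIN Ω μ T S R hT hS hR ![γ', β', α'] ?_ hγ3 hβ3 hα3 hγ4 hβ4 hα4 ?_ A hA hA0
  · intro l j
    fin_cases l
    · exact hγ2 j
    · exact hβ2 j
    · exact hα2 j
  · filter_upwards [hind] with x hx
    intro s hs n hn z hz
    classical
    set s' : Finset ℂ := s.image (fun z : Circle => (z : ℂ)) with hs'
    have hinj : Set.InjOn (fun z : Circle => (z : ℂ)) ↑s := fun a _ b _ h => Circle.ext h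
    set n' : ℂ → ℤ := fun w => if h : ‖w‖ = 1 then n ⟨w, mem_sphere_zero_iff_norm.2 h⟩ else 0
      with hn'
    have hn'z : ∀ z : Circle, n' (z : ℂ) = n z := by
      intro z
      rw [hn']
      simp only [Circle.norm_coe, dite_true]
      rfl
    have h1 : ∀ w ∈ s', w ∈ {z : ℂ | z ≠ 1 ∧ ∃ j, α j x = z ∨ β j x = z ∨ γ j x = z} := by
      intro w hw
      rw [hs', Finset.mem_image] at hw
      obtain ⟨z, hz, rfl⟩ := hw
      obtain ⟨hz1, l, j, hlj⟩ := hs hz
      refine ⟨fun h => hz1 (Circle.ext h), j, ?_⟩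
      fin_cases l
      · right; right
        rw [← hγ1]
        exact congrArg _ hlj
      · right; left
        rw [← hβ1]
        exact congrArg _ hlj
      · left
        rw [← hα1]
        exact congrArg _ hlj
    have h2 : ∏ w ∈ s', w ^ n' w = 1 := by
      rw [hs', Finset.prod_image hinj]
      simp only [hn'z]
      have h3 : ∀ t : Finset Circle, ((∏ z ∈ t, z ^ n z : Circle) : ℂ)
          = ∏ z ∈ t, (z : ℂ) ^ n z := by
        intro t
        induction t using Finset.induction_on with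
        | empty => simp
        | insert i t hit ih =>
          rw [Finset.prod_insert hit, Finset.prod_insert hit, Circle.coe_mul, ih, Circle.coe_zpow]
      rw [← h3, hn, Circle.coe_one]
    have h4 := hx s' h1 n' h2 (z : ℂ) (Finset.mem_image_of_mem _ hz)
    rw [hn'z] at h4
    exact h4

end Pool.Agent.Results.MP_cfac66_an.IndependentGenerators
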