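import Pool.Agent.LSQ.Final

set_option autoImplicit false

/-! Multiple recurrence for three non-commuting measure preserving maps at the times `m`, `m + n`,
`m + 2n`, for sets of measure greater than `1/3`. -/

open MeasureTheory Finset

universe u

namespace Pool.Agent.Results.MP_cfac66_an.LargeSets

open Pool.Agent.FSP Pool.Agent.Ind3 Pool.Agent.LSQ

/-- Let `T, S, R` be arbitrary invertible measure preserving maps of a probability space and `A` a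
measurable set with `μ A > 1/3`, or, more generally, a set of positive measure for which the
averages over `n < N` of `μ (A ∩ T^{-n} A) + μ (A ∩ S^{-n} A) + μ (A ∩ R^{-n} A)` are at least
` (1 + θ) μ A` for arbitrarily large `N`, with some `θ > 0`. Then for some `m, n ≥ 1` the set
`A ∩ T^{-m} A ∩ S^{-(m+n)} A ∩ R^{-(m+2n)} A` has positive measure. -/
theorem result (Ω : Type u) [MeasurableSpace Ω] (μ : Measure Ω)
    [IsProbabilityMeasure μ]
    (T S R : Ω ≃ᵐ Ω) (hT : MeasurePreserving T μ μ) (hS : MeasurePreserving S μ μ)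
    (hR : MeasurePreserving R μ μ) (A : Set Ω) (hA : MeasurableSet A)
    (hlarge : 1 / 3 < μ.real A ∨ (0 < μ.real A ∧ ∃ θ : ℝ, 0 < θ ∧ ∀ N₀ : ℕ, ∃ N ≥ N₀,
      (1 + θ) * μ.real A ≤ (N : ℝ)⁻¹ * ∑ n ∈ range N, (μ.real (A ∩ (⇑T)^[n] ⁻¹' A)
        + μ.real (A ∩ (⇑S)^[n] ⁻¹' A) + μ.real (A ∩ (⇑R)^[n] ⁻¹' A)))) :
    ∃ m n : ℕ, 1 ≤ m ∧ 1 ≤ n ∧
      μ (A ∩ (⇑T)^[m] ⁻¹' A ∩ (⇑S)^[m + n] ⁻¹' A ∩ (⇑R)^[m + 2 * n] ⁻¹' A) ≠ 0 := by
  have hpos : 0 < μ.real A := by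
    rcases hlarge with h | h
    · linarith
    · exact h.1
  have hA0 : μ A ≠ 0 := by
    intro h0
    have : μ.real A = 0 := by simp [Measure.real, h0]
    linarith
  have hbig : 1 / 3 < μ.real A ∨ ∃ θ : ℝ, 0 < θ ∧ Big μ ![⇑R, ⇑S, ⇑T] A θ := by
    rcases hlarge with h | ⟨_, θ, hθ, h⟩
    · exact Or.inl h
    · refine Or.inr ⟨θ, hθ, fun N₀ => ?_⟩
      obtain ⟨N, hN, h1⟩ := h N₀
      refine ⟨N, hN, h1.trans (le_of_eq ?_)⟩
      congr 1
      refine Finset.sum_congr rfl fun n _ => ?_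
      rw [Fin.sum_univ_three]
      show μ.real (A ∩ (⇑T)^[n] ⁻¹' A) + μ.real (A ∩ (⇑S)^[n] ⁻¹' A)
          + μ.real (A ∩ (⇑R)^[n] ⁻¹' A) = μ.real (A ∩ (⇑R)^[n] ⁻¹' A)
          + μ.real (A ∩ (⇑S)^[n] ⁻¹' A) + μ.real (A ∩ (⇑T)^[n] ⁻¹' A)
      ring
  obtain ⟨m, n, hm, hn, h⟩ := f_LSF Ω μ ![⇑R, ⇑S, ⇑T] ![⇑R.symm, ⇑S.symm, ⇑T.symm]
    (by intro l; fin_cases l; exacts [hR, hS, hT])
    (by intro l; fin_cases l; exacts [hR.symm R, hS.symm S, hT.symm T])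
    (by intro l x; fin_cases l; exacts [R.symm_apply_apply x, S.symm_apply_apply x,
          T.symm_apply_apply x])
    (by intro l x; fin_cases l; exacts [R.apply_symm_apply x, S.apply_symm_apply x,
          T.apply_symm_apply x])
    A hA hA0 hbig
  refine ⟨m, n, hm, hn, fun h0 => h ?_⟩
  refine measure_mono_null ?_ h0
  rintro x ⟨hx1, hx2, hx3, hx4⟩
  exact ⟨⟨⟨hx1, hx2⟩, hx3⟩, hx4⟩

end Pool.Agent.Results.MP_cfac66_an.LargeSets
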