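import Pool.Agent.SHL.Final

set_option autoImplicit false

/-! Multiple recurrence for three non-commuting measure preserving maps at the times `m`, `m + n`,
`m + 2n`, when the common generalised eigenvalues of the three maps have finite rank modulo
functions which are invariant under two of the maps. -/

open MeasureTheory

universe u

namespace Pool.Agent.Results.MP_cfac66_an.SharedEigenvalues

open Pool.Agent.FSP Pool.Agent.Ind3 Pool.Agent.CRk Pool.Agent.SHL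

/-- `v` is a generalised eigenfunction of `Q` with eigenvalue `lam`: both are measurable, `lam` has
modulus one and is `Q`-invariant, and `v (Q x) = lam x * v x` for almost every `x`. -/
def IsGenEigen {Ω : Type u} [MeasurableSpace Ω] (μ : Measure Ω) (Q : Ω → Ω) (v lam : Ω → ℂ) :
    Prop :=
  Measurable v ∧ Measurable lam ∧ (∀ x, ‖lam x‖ = 1) ∧ (∀ x, lam (Q x) = lam x) ∧
    ∀ᵐ x ∂μ, v (Q x) = lam x * v x

/-- The functions `α j` are measurable, of modulus one and `Q`-invariant. -/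
def IsInvariantList {Ω : Type u} [MeasurableSpace Ω] (Q : Ω → Ω) (α : ℕ → Ω → ℂ) : Prop :=
  ∀ j, Measurable (α j) ∧ ∀ x, ‖α j x‖ = 1 ∧ α j (Q x) = α j x

/-- `z` lies in the group generated by the numbers `α j x`, `j = 0, 1, 2, ..`: it is a product of
integer powers of finitely many of them. -/
def InGroup {Ω : Type u} (α : ℕ → Ω → ℂ) (x : Ω) (z : ℂ) : Prop :=
  ∃ (n : ℕ) (a : Fin n → ℤ), z = ∏ j : Fin n, α j x ^ a j

/-- At almost every point of `Z` the maps `T, S, R` have at most `k` generalised eigenvalues in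
common that are independent modulo the group generated by the numbers `α j x`: whenever `u i`,
`v i`, `w i` (`i = 0, .., k`) are generalised eigenfunctions of `T`, of `S` and of `R` with
eigenvalues `a i`, `b i`, `c i`, then for almost every `x ∈ Z` at which none of them vanishes and at
which `a i x`, `b i x`, `c i x` are equal modulo this group for every `i`, some product
`∏ i, a i x ^ n i` with integers `n i`, not all zero, lies in this group. -/
def CommonRankAtMost {Ω : Type u} [MeasurableSpace Ω] (μ : Measure Ω) (T S R : Ω → Ω)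
    (α : ℕ → Ω → ℂ) (Z : Set Ω) (k : ℕ) : Prop :=
  ∀ u v w a b c : Fin (k + 1) → Ω → ℂ, (∀ i, IsGenEigen μ T (u i) (a i)) →
    (∀ i, IsGenEigen μ S (v i) (b i)) → (∀ i, IsGenEigen μ R (w i) (c i)) →
    ∀ᵐ x ∂μ, x ∈ Z → (∀ i, u i x ≠ 0 ∧ v i x ≠ 0 ∧ w i x ≠ 0) →
      (∀ i, InGroup α x (a i x / b i x) ∧ InGroup α x (a i x / c i x)) →
      ∃ n : Fin (k + 1) → ℤ, n ≠ 0 ∧ InGroup α x (∏ i, a i x ^ n i)

/-- A monomial with a given sequence of exponents. -/
noncomputable def mon {Ω : Type u} (α : ℕ → Ω → Circle) (s : Σ n : ℕ, (Fin n → ℤ)) (x : Ω) :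
    Circle := ∏ j : Fin s.1, α j x ^ s.2 j

theorem mon_eq {Ω : Type u} (s : Σ n : ℕ, (Fin n → ℤ)) (N : ℕ) (hN : s.1 ≤ N)
    (α : ℕ → Ω → Circle) (x : Ω) :
    mon α s x = ∏ j ∈ Finset.range N, α j x ^ (if h : j < s.1 then s.2 ⟨j, h⟩ else 0) := by
  obtain ⟨n, a⟩ := s
  unfold mon
  simp only
  rw [Finset.prod_fin_eq_prod_range]
  rw [← Finset.prod_subset (Finset.range_subset_range.2 hN)]
  · apply Finset.prod_congr rfl
    intro j hj
    simp only [Finset.mem_range] at hj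
    simp only [hj, dif_pos]
  · intro j _ hj
    simp only [Finset.mem_range] at hj
    simp only [hj, dif_neg, not_false_eq_true, zpow_zero]

theorem mon_range {Ω : Type u} (N : ℕ) (a : ℕ → ℤ) (α : ℕ → Ω → Circle) (x : Ω) :
    mon α ⟨N, fun j => a j⟩ x = ∏ j ∈ Finset.range N, α j x ^ a j := by
  unfold mon
  simp only
  rw [Finset.prod_range]

theorem mon_one {Ω : Type u} (α : ℕ → Ω → Circle) (x : Ω) :
    mon α ⟨0, fun j => j.elim0⟩ x = 1 := by
  unfold mon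
  simp

theorem mon_mul {Ω : Type u} (s t : Σ n : ℕ, (Fin n → ℤ)) :
    ∃ u : Σ n : ℕ, (Fin n → ℤ), ∀ (α : ℕ → Ω → Circle) (x : Ω),
      mon α s x * mon α t x = mon α u x := by
  refine ⟨⟨max s.1 t.1, fun j => (if h : (j : ℕ) < s.1 then s.2 ⟨j, h⟩ else 0) +
    (if h : (j : ℕ) < t.1 then t.2 ⟨j, h⟩ else 0)⟩, fun α x => ?_⟩
  rw [mon_eq s (max s.1 t.1) (le_max_left _ _), mon_eq t (max s.1 t.1) (le_max_right _ _),
    mon_range (max s.1 t.1) (fun j => (if h : j < s.1 then s.2 ⟨j, h⟩ else 0) +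
    (if h : j < t.1 then t.2 ⟨j, h⟩ else 0)), ← Finset.prod_mul_distrib]
  apply Finset.prod_congr rfl
  intro j _
  rw [zpow_add]

theorem mon_inv {Ω : Type u} (s : Σ n : ℕ, (Fin n → ℤ)) :
    ∃ u : Σ n : ℕ, (Fin n → ℤ), ∀ (α : ℕ → Ω → Circle) (x : Ω),
      (mon α s x)⁻¹ = mon α u x := by
  refine ⟨⟨s.1, fun j => - s.2 j⟩, fun α x => ?_⟩
  unfold mon
  simp only [zpow_neg]
  rw [Finset.prod_inv_distrib]


/-- The circle valued version of a function of modulus one. -/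
noncomputable def cir {Ω : Type u} (f : Ω → ℂ) (h : ∀ x, ‖f x‖ = 1) (x : Ω) : Circle :=
  ⟨f x, mem_sphere_zero_iff_norm.2 (h x)⟩

theorem cir_coe {Ω : Type u} (f : Ω → ℂ) (h : ∀ x, ‖f x‖ = 1) (x : Ω) :
    ((cir f h x : Circle) : ℂ) = f x := rfl

theorem cir_meas {Ω : Type u} [MeasurableSpace Ω] (f : Ω → ℂ) (h : ∀ x, ‖f x‖ = 1)
    (hf : Measurable f) : Measurable (cir f h) := by
  refine measurable_of_isOpen fun U hU => ?_
  obtain ⟨V, hV, rfl⟩ := isOpen_induced_iff.1 hU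
  exact hf hV.measurableSet

theorem cir_inv {Ω : Type u} (Q : Ω → Ω) (f : Ω → ℂ) (h : ∀ x, ‖f x‖ = 1)
    (hf : ∀ x, f (Q x) = f x) (x : Ω) : cir f h (Q x) = cir f h x :=
  Circle.ext (hf x)

theorem coe_prod {n : ℕ} (f : Fin n → Circle) (a : Fin n → ℤ) :
    ((∏ i, f i ^ a i : Circle) : ℂ) = ∏ i, (f i : ℂ) ^ a i := by
  have h2 : ∀ s : Finset (Fin n), ((∏ j ∈ s, f j ^ a j : Circle) : ℂ)
      = ∏ j ∈ s, (f j : ℂ) ^ a j := by
    intro s
    classical
    induction s using Finset.induction_on with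
    | empty => simp
    | insert i s his ih =>
      rw [Finset.prod_insert his, Finset.prod_insert his, Circle.coe_mul, ih,
        Circle.coe_zpow]
  exact h2 Finset.univ

theorem core (Ω : Type u) [MeasurableSpace Ω] (μ : Measure Ω)
    [IsProbabilityMeasure μ]
    (T S R : Ω ≃ᵐ Ω) (hT : MeasurePreserving T μ μ) (hS : MeasurePreserving S μ μ)
    (hR : MeasurePreserving R μ μ) (A : Set Ω) (hA : MeasurableSet A)
    (Z : Set Ω) (hZ : MeasurableSet Z) (hAZ : μ (A ∩ Z) ≠ 0)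
    (l0 : Fin 3) (E : Fin 3 → ℕ → Ω → Circle) (hE : ∀ l j, Measurable (E l j))
    (hEQ : ∀ l, l ≠ l0 → ∀ j x, E l j ((![⇑R, ⇑S, ⇑T] : Fin 3 → Ω → Ω) l x) = E l j x)
    (α : ℕ → Ω → ℂ) (hEα : ∀ l j, ∀ x ∈ Z, ((E l j x : Circle) : ℂ) = α j x) (k : ℕ)
    (hrk : CommonRankAtMost μ T S R α Z k) :
    ∃ m n : ℕ, 1 ≤ m ∧ 1 ≤ n ∧
      μ (A ∩ (⇑T)^[m] ⁻¹' A ∩ (⇑S)^[m + n] ⁻¹' A ∩ (⇑R)^[m + 2 * n] ⁻¹' A) ≠ 0 := by
  classical
  have hcont : Continuous (fun z : Circle => (z : ℂ)) := continuous_induced_dom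
  have : Nonempty (Σ n : ℕ, (Fin n → ℤ)) := ⟨⟨0, fun j => j.elim0⟩⟩
  obtain ⟨f, hf⟩ := exists_surjective_nat (Σ n : ℕ, (Fin n → ℤ))
  set e : Fin 3 → ℕ → Ω → Circle := fun l n => mon (E l) (f n) with he
  have hge : ∀ (Q : Ω → Ω) (v : Ω → ℂ) (lam : Ω → Circle), GEig μ Q v lam →
      IsGenEigen μ Q v (fun x => (lam x : ℂ)) := by
    intro Q v lam ⟨h1, h2, h3, h4⟩
    refine ⟨h1, hcont.measurable.comp h2, fun x => Circle.norm_coe _, fun x => ?_, h4⟩
    show ((lam (Q x) : Circle) : ℂ) = lam x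
    rw [h3 x]
  have hem : ∀ l n, Measurable (e l n) := by
    intro l n
    exact Finset.measurable_prod _ fun j _ => (hE l j).pow_const _
  have heQ : ∀ l, l ≠ l0 → ∀ n x, e l n ((![⇑R, ⇑S, ⇑T] : Fin 3 → Ω → Ω) l x) = e l n x := by
    intro l hl n x
    simp only [he, mon, hEQ l hl]
  have hval : ∀ l, ∀ x ∈ Z, ∀ s : Σ n : ℕ, (Fin n → ℤ),
      ((mon (E l) s x : Circle) : ℂ) = ∏ j : Fin s.1, α j x ^ s.2 j := by
    intro l x hx s
    unfold mon
    rw [coe_prod]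
    exact Finset.prod_congr rfl fun j _ => by rw [hEα l j x hx]
  have heZ : ∀ l n, ∀ x ∈ Z, e l n x = e 0 n x := by
    intro l n x hx
    apply Circle.ext
    rw [he]
    simp only
    rw [hval l x hx, hval 0 x hx]
  have hgr : GrF (e 0) := by
    refine ⟨?_, ?_, ?_⟩
    · obtain ⟨n, hn⟩ := hf ⟨0, fun j => j.elim0⟩
      exact ⟨n, fun x => by simp only [he, hn, mon_one]⟩
    · intro n m
      obtain ⟨u, hu⟩ := mon_mul (Ω := Ω) (f n) (f m)
      obtain ⟨k', hk'⟩ := hf u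
      exact ⟨k', fun x => by simp only [he, hk', hu]⟩
    · intro n
      obtain ⟨u, hu⟩ := mon_inv (Ω := Ω) (f n)
      obtain ⟨k', hk'⟩ := hf u
      exact ⟨k', fun x => by simp only [he, hk', hu]⟩
  have hto : ∀ x ∈ Z, ∀ z : Circle, InG (e 0) x z → InGroup α x (z : ℂ) := by
    intro x hx z ⟨n, hn⟩
    refine ⟨(f n).1, (f n).2, ?_⟩
    rw [hn]
    exact hval 0 x hx (f n)
  have hfrom : ∀ x ∈ Z, ∀ z : Circle, InGroup α x (z : ℂ) → InG (e 0) x z := by
    intro x hx z ⟨n, a, hn⟩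
    obtain ⟨k', hk'⟩ := hf ⟨n, a⟩
    refine ⟨k', Circle.ext ?_⟩
    rw [hn]
    simp only [he, hk']
    exact (hval 0 x hx ⟨n, a⟩).symm
  have hrk' : RkG μ ![⇑R, ⇑S, ⇑T] (e 0) Z k := by
    intro V L hVL
    have h := hrk (V 2) (V 1) (V 0) (fun i x => (L 2 i x : ℂ)) (fun i x => (L 1 i x : ℂ))
      (fun i x => (L 0 i x : ℂ)) (fun i => hge _ _ _ (hVL 2 i)) (fun i => hge _ _ _ (hVL 1 i))
      (fun i => hge _ _ _ (hVL 0 i))
    filter_upwards [h] with x hx hxZ hV hL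
    obtain ⟨a, ha, haΛ⟩ := hx hxZ (fun i => ⟨hV 2 i, hV 1 i, hV 0 i⟩) (fun i => by
      have h1' := hto x hxZ _ (hL 1 i)
      have h0' := hto x hxZ _ (hL 0 i)
      rw [Circle.coe_mul, Circle.coe_inv, ← div_eq_mul_inv] at h1' h0'
      exact ⟨h1', h0'⟩)
    refine ⟨a, ha, hfrom x hxZ _ ?_⟩
    rw [coe_prod]
    exact haΛ
  obtain ⟨m, n, hm, hn, h⟩ := f_FNK Ω μ ![⇑R, ⇑S, ⇑T] ![⇑R.symm, ⇑S.symm, ⇑T.symm]
    (by intro l; fin_cases l; exacts [hR, hS, hT])
    (by intro l; fin_cases l; exacts [hR.symm R, hS.symm S, hT.symm T])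
    (by intro l x; fin_cases l; exacts [R.symm_apply_apply x, S.symm_apply_apply x,
          T.symm_apply_apply x])
    (by intro l x; fin_cases l; exacts [R.apply_symm_apply x, S.apply_symm_apply x,
          T.apply_symm_apply x])
    l0 e hem heQ hgr Z k hZ heZ hrk' A hA hAZ
  refine ⟨m, n, hm, hn, fun h0 => h ?_⟩
  refine measure_mono_null ?_ h0
  rintro x ⟨hx1, hx2, hx3, hx4⟩
  exact ⟨⟨⟨hx1, hx2⟩, hx3⟩, hx4⟩

/-- Let `T, S, R` be invertible measure preserving maps of a probability space, `P, Q` two of them,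
`A` and `Z` measurable sets with `μ (A ∩ Z) ≠ 0`, `α j` (`j = 0, 1, ..`) functions of modulus one
which are invariant under `P` and `β j` functions of modulus one which are invariant under `Q`, with
`α j = β j` on `Z`. Suppose that for some `k` the three maps have at almost every point of `Z` at most
`k` generalised eigenvalues in common that are independent modulo the group generated by the numbers
`α j x`. Then for some `m, n ≥ 1` the set `A ∩ T^{-m}A ∩ S^{-(m+n)}A ∩ R^{-(m+2n)}A` has positive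
measure. -/
theorem result (Ω : Type u) [MeasurableSpace Ω] (μ : Measure Ω)
    [IsProbabilityMeasure μ]
    (T S R : Ω ≃ᵐ Ω) (hT : MeasurePreserving T μ μ) (hS : MeasurePreserving S μ μ)
    (hR : MeasurePreserving R μ μ) (A : Set Ω) (hA : MeasurableSet A)
    (Z : Set Ω) (hZ : MeasurableSet Z) (hAZ : μ (A ∩ Z) ≠ 0)
    (P Q : Ω ≃ᵐ Ω) (hPQ : (P = T ∧ Q = S) ∨ (P = T ∧ Q = R) ∨ (P = S ∧ Q = R))
    (α β : ℕ → Ω → ℂ) (hα : IsInvariantList P α) (hβ : IsInvariantList Q β)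
    (hαβ : ∀ j, ∀ x ∈ Z, α j x = β j x) (k : ℕ)
    (hrk : CommonRankAtMost μ T S R α Z k) :
    ∃ m n : ℕ, 1 ≤ m ∧ 1 ≤ n ∧
      μ (A ∩ (⇑T)^[m] ⁻¹' A ∩ (⇑S)^[m + n] ⁻¹' A ∩ (⇑R)^[m + 2 * n] ⁻¹' A) ≠ 0 := by
  have hα1 : ∀ j x, ‖α j x‖ = 1 := fun j x => ((hα j).2 x).1
  have hβ1 : ∀ j x, ‖β j x‖ = 1 := fun j x => ((hβ j).2 x).1
  set a' : ℕ → Ω → Circle := fun j => cir (α j) (hα1 j) with ha'
  set b' : ℕ → Ω → Circle := fun j => cir (β j) (hβ1 j) with hb'
  have ham : ∀ j, Measurable (a' j) := fun j => cir_meas _ _ (hα j).1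
  have hbm : ∀ j, Measurable (b' j) := fun j => cir_meas _ _ (hβ j).1
  have hai : ∀ j x, a' j (P x) = a' j x := fun j x =>
    cir_inv P (α j) (hα1 j) (fun x => ((hα j).2 x).2) x
  have hbi : ∀ j x, b' j (Q x) = b' j x := fun j x =>
    cir_inv Q (β j) (hβ1 j) (fun x => ((hβ j).2 x).2) x
  have haZ : ∀ j, ∀ x ∈ Z, ((a' j x : Circle) : ℂ) = α j x := fun j x _ => rfl
  have hbZ : ∀ j, ∀ x ∈ Z, ((b' j x : Circle) : ℂ) = α j x := fun j x hx => (hαβ j x hx).symm
  rcases hPQ with ⟨rfl, rfl⟩ | ⟨rfl, rfl⟩ | ⟨rfl, rfl⟩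
  · refine core Ω μ P Q R hT hS hR A hA Z hZ hAZ 0 ![a', b', a'] ?_ ?_ α ?_ k hrk
    · intro l; fin_cases l; exacts [ham, hbm, ham]
    · intro l hl; fin_cases l
      · exact absurd rfl hl
      · exact hbi
      · exact hai
    · intro l; fin_cases l; exacts [haZ, hbZ, haZ]
  · refine core Ω μ P S Q hT hS hR A hA Z hZ hAZ 1 ![b', a', a'] ?_ ?_ α ?_ k hrk
    · intro l; fin_cases l; exacts [hbm, ham, ham]
    · intro l hl; fin_cases l
      · exact hbi
      · exact absurd rfl hl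
      · exact hai
    · intro l; fin_cases l; exacts [hbZ, haZ, haZ]
  · refine core Ω μ T P Q hT hS hR A hA Z hZ hAZ 2 ![b', a', a'] ?_ ?_ α ?_ k hrk
    · intro l; fin_cases l; exacts [hbm, ham, ham]
    · intro l hl; fin_cases l
      · exact hbi
      · exact hai
      · exact absurd rfl hl
    · intro l; fin_cases l; exacts [hbZ, haZ, haZ]

end Pool.Agent.Results.MP_cfac66_an.SharedEigenvalues
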